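import Mathlib
import Pool.Agent.KS6_82.Kah.PSpace
import Pool.Agent.KS6_82.Kah.Strong

/-!
# Semi-positive extension of singular metrics fails in every fibre dimension `n ≥ 2`

(1) If a singular metric of semi-positive curvature on the central fibre of a Kähler family
`π : X → Δ` has no semi-positive extension to `X`, then for every compact connected Kähler manifold
`K` its pull-back to the family `X × K → Δ` has no semi-positive extension to `X × K`.

(2) For every `n ≥ 2` there is a family with fibres of dimension `n` and a metric `φ₀` on the central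
fibre which has no semi-positive extension; there is not even a metric `φ` of semi-positive curvature
over a neighbourhood of the central fibre with `φ ≥ φ₀ - C` on the central fibre, for any constant
`C`. The fibres are the products of the projective space of dimension `n - 2` with the quadric
surface (for `t ≠ 0`) and the Hirzebruch surface of degree two (for `t = 0`).
-/

set_option autoImplicit false

open Filter Metric Set Topology
open scoped ComplexConjugate Manifold ContDiff

namespace Pool.Agent.Results.MP_752b71_an.EveryDimension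

open Pool.Agent.Results.MP_752b71_an.NoExtension Pool.Agent.KS6_82.Kah

/-- `π : X → Δ` is a proper holomorphic submersion with connected compact Kähler fibres, the line
bundle `L` on `X` is pseudoeffective, `φ₀` is a singular metric of semi-positive curvature on its
restriction to `X_0`, and `φ₀` has no semi-positive extension to `X`. -/
def IsCounterexample (E : Type) [NormedAddCommGroup E] [NormedSpace ℂ E] {X : Type}
    [TopologicalSpace X] [ChartedSpace E X] (π : X → ℂ) (L : HolLineBundle E X)
    (φ₀ : L.ι → X → EReal) : Prop :=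
  IsKahlerFamily E π ∧ L.IsPseudoeffective ∧ L.IsPosMetric (π ⁻¹' {0}) φ₀ ∧
    ¬ ∃ φ : L.ι → X → EReal, L.IsPosMetric Set.univ φ ∧
      ∀ i, ∀ x ∈ L.U i, π x = 0 → φ i x = φ₀ i x

/-- There are no `r > 0` and no metric `φ` of semi-positive curvature on the restriction of `L` to
`π⁻¹(|t| < r)` such that `φ ≥ φ₀ - C` on `X_0` for a constant `C`. -/
def NoApproximateExtension {E : Type} [NormedAddCommGroup E] [NormedSpace ℂ E] {X : Type}
    [TopologicalSpace X] [ChartedSpace E X] (π : X → ℂ) (L : HolLineBundle E X)
    (φ₀ : L.ι → X → EReal) : Prop :=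
  ∀ r C : ℝ, 0 < r → ¬ ∃ φ : L.ι → X → EReal, L.IsPosMetric (π ⁻¹' ball 0 r) φ ∧
    ∀ i, ∀ x ∈ L.U i, π x = 0 → φ₀ i x ≤ φ i x + (C : EReal)

variable {E F : Type} [NormedAddCommGroup E] [NormedSpace ℂ E] [FiniteDimensional ℂ E]
  [NormedAddCommGroup F] [NormedSpace ℂ F] [FiniteDimensional ℂ F]
variable {X K : Type} [TopologicalSpace X] [ChartedSpace E X] [IsManifold 𝓘(ℂ, E) ω X]
  [TopologicalSpace K] [ChartedSpace F K] [IsManifold 𝓘(ℂ, F) ω K]

theorem prod_counterexample [CompactSpace K] [ConnectedSpace K]
    (hK : IsKahlerSubmanifold F (univ : Set K)) {π : X → ℂ} {L : HolLineBundle E X}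
    {φ₀ : L.ι → X → EReal} (h : IsCounterexample E π L φ₀) :
    IsCounterexample (E × F) (fun p : X × K => π p.1) (pullback K F L) (fun i p => φ₀ i p.1) := by
  have := FiniteDimensional.complete ℂ E
  have := FiniteDimensional.complete ℂ F
  obtain ⟨h1, ⟨ψ, h2⟩, h3, h4⟩ := h
  refine ⟨family_prod hK h1, ⟨_, posMetric_pullback h2⟩, posMetric_pullback h3, ?_⟩
  rintro ⟨φ, h5, h6⟩
  refine h4 ⟨fun i x => ⨆ k, φ i (x, k), posMetric_descent h5, ?_⟩
  intro i x hx hx0
  have : ∀ k, φ i (x, k) = φ₀ i x := fun k => h6 i (x, k) hx hx0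
  simp only [this, iSup_const]

omit [FiniteDimensional ℂ E] [FiniteDimensional ℂ F] [IsManifold 𝓘(ℂ, E) ω X]
  [IsManifold 𝓘(ℂ, F) ω K] in
theorem prod_noApprox [CompactSpace K] [ConnectedSpace K] {π : X → ℂ} {L : HolLineBundle E X}
    {φ₀ : L.ι → X → EReal} (h : NoApproximateExtension π L φ₀) :
    NoApproximateExtension (fun p : X × K => π p.1) (pullback K F L) (fun i p => φ₀ i p.1) := by
  intro r C hr
  rintro ⟨φ, h5, h6⟩
  refine h r C hr ⟨fun i x => ⨆ k, φ i (x, k), posMetric_descent h5, ?_⟩
  intro i x hx hx0
  have h7 := h6 i (x, Classical.arbitrary K) hx hx0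
  exact h7.trans (add_le_add_left (le_iSup (fun k => φ i (x, k)) _) _)

theorem norm_tt (m : Tot) : tt m ∈ ball (0 : ℂ) 1 := by
  obtain ⟨m, x, y, _, _, ht, _⟩ := m
  simpa [tt] using ht

theorem tot_counterexample : IsCounterexample E3 tt LL phi0 := by
  refine ⟨?_, ⟨phiS, posMetric_phiS⟩, posMetric_phi0, ?_⟩
  · exact
      { mem_disc := norm_tt
        holomorphic := contMDiff_tt
        submersion := submersion_tt
        proper := proper_tt
        connected := connected_tt
        kahler := fun t _ => kahler_fibre t }
  · rintro ⟨φ, h1, h2⟩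
    refine no_extension 1 one_pos ⟨φ, ?_, h2⟩
    have : tt ⁻¹' ball 0 1 = univ := eq_univ_iff_forall.2 norm_tt
    rw [this]
    exact h1

/-- (1) Counterexamples to semi-positive extension are stable under products with compact connected
Kähler manifolds. (2) In every fibre dimension `n ≥ 2` there is a counterexample; moreover no metric
of semi-positive curvature over a neighbourhood of the central fibre is bounded below by `φ₀ - C` on
the central fibre. -/
theorem result :
    (∀ (E F : Type) [NormedAddCommGroup E] [NormedSpace ℂ E] [FiniteDimensional ℂ E]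
      [NormedAddCommGroup F] [NormedSpace ℂ F] [FiniteDimensional ℂ F]
      (X K : Type) [TopologicalSpace X] [ChartedSpace E X] [IsManifold 𝓘(ℂ, E) ω X]
      [TopologicalSpace K] [ChartedSpace F K] [IsManifold 𝓘(ℂ, F) ω K]
      [CompactSpace K] [ConnectedSpace K] (π : X → ℂ) (L : HolLineBundle E X)
      (φ₀ : L.ι → X → EReal), IsKahlerSubmanifold F (univ : Set K) → IsCounterexample E π L φ₀ →
        IsManifold 𝓘(ℂ, E × F) ω (X × K) ∧
        IsCounterexample (E × F) (fun p : X × K => π p.1) (pullback K F L)
          (fun i p => φ₀ i p.1) ∧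
        (NoApproximateExtension π L φ₀ →
          NoApproximateExtension (fun p : X × K => π p.1) (pullback K F L)
            (fun i p => φ₀ i p.1))) ∧
    ∀ n : ℕ, 2 ≤ n → ∃ (E : Type) (_ : NormedAddCommGroup E) (_ : NormedSpace ℂ E)
      (X : Type) (_ : TopologicalSpace X) (_ : T2Space X) (_ : SecondCountableTopology X)
      (_ : ChartedSpace E X) (_ : IsManifold 𝓘(ℂ, E) ω X) (π : X → ℂ) (L : HolLineBundle E X)
      (φ₀ : L.ι → X → EReal), Module.finrank ℂ E = n + 1 ∧ IsCounterexample E π L φ₀ ∧
        NoApproximateExtension π L φ₀ := by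
  constructor
  · intro E F _ _ _ _ _ _ X K _ _ _ _ _ _ _ _ π L φ₀ hK h
    exact ⟨inferInstance, prod_counterexample hK h, prod_noApprox⟩
  · intro n hn
    obtain ⟨k, rfl⟩ := Nat.exists_eq_add_of_le hn
    refine ⟨E3 × (Fin k → ℂ), inferInstance, inferInstance, Tot × PP k, inferInstance,
      inferInstance, inferInstance, inferInstance, inferInstance, fun p => tt p.1,
      pullback (PP k) (Fin k → ℂ) LL, fun i p => phi0 i p.1, ?_,
      prod_counterexample kahler_PP tot_counterexample,
      prod_noApprox fun r C hr => no_extension' r hr C⟩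
    have h3 : Module.finrank ℂ E3 = 3 := by
      simp [E3]
    rw [Module.finrank_prod, h3, Module.finrank_fin_fun]
    ring

end Pool.Agent.Results.MP_752b71_an.EveryDimension
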